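import Pool.Agent.Lib_helper31.MDMain

/-!
# MP_4617fc_co: metric dimension and edge metric dimension are at most `L(G) + 2c(G)`

For every finite connected graph `G` with cyclomatic number `c(G) ≥ 2` the metric dimension and the
edge metric dimension are at most `L(G) + 2 c(G)`, where `L(G)` is the sum of `l(v) - 1` over the
vertices `v` of degree at least three with `l(v) > 1` legs.

Proof idea.  Take a breadth-first tree `T` of `G` with root `r`.  The root, the ends of the `c(G)`
edges outside `T` and one vertex in all but one of the legs at every branching vertex resolve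
everything; this gives `L(G) + 2 c(G) + 1`, and less if two edges outside `T` share an end.  To save
one vertex take an edge `xy` outside `T` whose level is maximal and leave out `x`.  If the two
branches of the tree ending in `x` and `y` hang at one vertex `q`, then `q` is a cut vertex and a
tree with root `q` is used, without its root.  In the other cases an unresolved pair would give a
sequence of vertices descending in the tree, which is impossible; in one case of the edge version
the vertex `y` has to be replaced by a child of `y`.
-/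

set_option autoImplicit false

namespace Pool.Agent.Results.MP_4617fc_co.MetricDimensionBound

open SimpleGraph

universe u

variable {V : Type u} [Fintype V]

/-- the degree of a vertex: the number of its neighbours -/
noncomputable def deg (G : SimpleGraph V) (v : V) : ℕ := (G.neighborSet v).ncard

/-- the cyclomatic number `m - n + 1` -/
noncomputable def cyclomatic (G : SimpleGraph V) : ℤ := G.edgeSet.ncard - Fintype.card V + 1

/-- `S` is resolving: any two different vertices have different distances from a vertex of `S` -/
def IsResolving (G : SimpleGraph V) (S : Finset V) : Prop :=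
  ∀ x y, x ≠ y → ∃ s ∈ S, G.dist s x ≠ G.dist s y

/-- the metric dimension: the minimum size of a resolving set -/
noncomputable def metricDim (G : SimpleGraph V) : ℕ :=
  sInf {k | ∃ S : Finset V, IsResolving G S ∧ S.card = k}

/-- `d (e, s)`: the minimum of the distances of the ends of `e` from `s` -/
noncomputable def edgeDist (G : SimpleGraph V) (e : Sym2 V) (s : V) : ℕ :=
  sInf {k | ∃ u ∈ e, G.dist u s = k}

/-- `S` is edge resolving: any two different edges have different distances from a vertex of
`S` -/
def IsEdgeResolving (G : SimpleGraph V) (S : Finset V) : Prop :=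
  ∀ e ∈ G.edgeSet, ∀ f ∈ G.edgeSet, e ≠ f → ∃ s ∈ S, edgeDist G e s ≠ edgeDist G f s

/-- the edge metric dimension: the minimum size of an edge resolving set -/
noncomputable def edgeMetricDim (G : SimpleGraph V) : ℕ :=
  sInf {k | ∃ S : Finset V, IsEdgeResolving G S ∧ S.card = k}

/-- the list `p = p₁ ... pₖ` is a leg at `v`: a path (no repetition, consecutive vertices adjacent)
with `k ≥ 1`, `p₁` adjacent to `v`, `pₖ` of degree 1 and `pᵢ` of degree 2 for `i < k` -/
def IsLeg (G : SimpleGraph V) (v : V) (p : List V) : Prop :=
  p.Nodup ∧ List.IsChain G.Adj (v :: p) ∧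
    ∃ h : p ≠ [], deg G (p.getLast h) = 1 ∧ ∀ w ∈ p.dropLast, deg G w = 2

/-- the number `l (v)` of legs at `v` -/
noncomputable def legs (G : SimpleGraph V) (v : V) : ℕ := {p : List V | IsLeg G v p}.ncard

open Classical in
/-- `L (G)`: the sum of `l (v) - 1` over all vertices `v` of degree at least 3 with `l (v) > 1` -/
noncomputable def legSum (G : SimpleGraph V) : ℕ :=
  ∑ v ∈ Finset.univ.filter fun v => 3 ≤ deg G v ∧ 1 < legs G v, (legs G v - 1)

section aux

variable (G : SimpleGraph V)

theorem deg_eq [DecidableRel G.Adj] (v : V) : deg G v = G.degree v := by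
  classical
  unfold deg
  rw [Set.ncard_eq_toFinset_card', ← card_neighborSet_eq_degree, Set.toFinset_card]

omit [Fintype V] in
theorem edgeDist_mk (a b s : V) : edgeDist G s(a, b) s = min (G.dist a s) (G.dist b s) := by
  unfold edgeDist
  have h : {k | ∃ u ∈ s(a, b), G.dist u s = k} = {G.dist a s, G.dist b s} := by
    ext k
    simp only [Set.mem_ofPred_eq, Sym2.mem_iff, Set.mem_insert_iff, Set.mem_singleton_iff]
    constructor
    · rintro ⟨u, rfl | rfl, h⟩
      · exact Or.inl h.symm
      · exact Or.inr h.symm
    · rintro (h | h)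
      · exact ⟨a, Or.inl rfl, h.symm⟩
      · exact ⟨b, Or.inr rfl, h.symm⟩
  rw [h, csInf_pair]

theorem isLeg_of_walk [DecidableRel G.Adj] {v u : V} (hv : 3 ≤ G.degree v) (hu : G.degree u = 1)
    (p : G.Walk v u) (hp : p.IsPath)
    (h2 : ∀ w ∈ p.support, w ≠ v → w ≠ u → G.degree w = 2) :
    IsLeg G v p.support.tail ∧ ∃ h : p.support.tail ≠ [], p.support.tail.getLast h = u := by
  have hvu : v ≠ u := by
    rintro rfl
    omega
  have hnd : p.support.Nodup := hp.support_nodup
  have hs : p.support = v :: p.support.tail := p.cons_tail_support.symm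
  have hne : p.support.tail ≠ [] := by
    intro h
    rw [h] at hs
    have h1 : u ∈ p.support := p.end_mem_support
    rw [hs, List.mem_singleton] at h1
    exact hvu h1.symm
  have hlast : p.support.tail.getLast hne = u := by
    rw [List.getLast_tail]
    exact p.getLast_support
  have hnd' : (v :: p.support.tail).Nodup := hs ▸ hnd
  refine ⟨⟨(List.nodup_cons.mp hnd').2, ?_, hne, ?_, ?_⟩, hne, hlast⟩
  · rw [← hs]
    exact p.isChain_adj_support
  · rw [hlast, deg_eq, hu]
  · intro w hw
    rw [deg_eq]
    refine h2 w ?_ ?_ ?_
    · rw [hs]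
      exact List.mem_cons_of_mem _ (List.mem_of_mem_dropLast hw)
    · rintro rfl
      exact (List.nodup_cons.mp hnd').1 (List.mem_of_mem_dropLast hw)
    · intro hwu
      have h3 := (List.nodup_cons.mp hnd').2
      rw [← List.dropLast_append_getLast hne, hlast, List.nodup_append] at h3
      exact h3.2.2 w hw u (by simp) hwu

theorem legs_ge [DecidableRel G.Adj] [DecidableEq V] {v : V} (hv : 3 ≤ G.degree v) :
    (Pool.Agent.Lib_helper31.MD.Legs G v).ncard ≤ legs G v := by
  classical
  have hfin : {p : List V | IsLeg G v p}.Finite :=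
    (List.finite_length_le V (Fintype.card V)).subset fun p hp => hp.1.length_le_card
  have hex : ∀ u ∈ Pool.Agent.Lib_helper31.MD.Legs G v, ∃ p : List V, IsLeg G v p ∧
      ∃ h : p ≠ [], p.getLast h = u := by
    rintro u ⟨hu, p, hp, h2⟩
    exact ⟨_, isLeg_of_walk G hv hu p hp h2⟩
  choose! F hF using hex
  refine Set.ncard_le_ncard_of_injOn F (fun u hu => (hF u hu).1) ?_ hfin
  intro u hu u' hu' h
  obtain ⟨h1, h1'⟩ := (hF u hu).2
  obtain ⟨h2, h2'⟩ := (hF u' hu').2
  rw [← h1', ← h2']
  congr 1

end aux

/-- Every finite connected graph `G` with `c(G) ≥ 2` has metric dimension and edge metric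
dimension at most `L(G) + 2 c(G)`. -/
theorem result (V : Type u) [Fintype V] (G : SimpleGraph V) (hG : G.Connected)
    (hc : 2 ≤ cyclomatic G) :
    (metricDim G : ℤ) ≤ legSum G + 2 * cyclomatic G ∧
      (edgeMetricDim G : ℤ) ≤ legSum G + 2 * cyclomatic G := by
  classical
  have hE : G.edgeSet.ncard = G.edgeFinset.card := by
    rw [Set.ncard_eq_toFinset_card']
    rfl
  unfold cyclomatic at *
  rw [hE] at hc ⊢
  have hc' : Fintype.card V + 1 ≤ G.edgeFinset.card := by omega
  obtain ⟨L, hL1, hL2⟩ := Pool.Agent.Lib_helper31.MD.exists_legset G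
  obtain ⟨⟨S, hS, hSc⟩, ⟨S', hS', hSc'⟩⟩ := Pool.Agent.Lib_helper31.MD.good hG hc' L hL2
  have hL3 : L.card ≤ legSum G := by
    refine hL1.trans ?_
    unfold legSum
    have h1 : ∑ v ∈ Finset.univ.filter (fun v => 3 ≤ G.degree v),
        ((Pool.Agent.Lib_helper31.MD.Legs G v).ncard - 1) ≤
        ∑ v ∈ Finset.univ.filter (fun v => 3 ≤ G.degree v), (legs G v - 1) := by
      refine Finset.sum_le_sum fun v hv => ?_
      exact Nat.sub_le_sub_right (legs_ge G (Finset.mem_filter.mp hv).2) 1
    refine h1.trans (le_of_eq ?_)
    symm
    refine Finset.sum_subset_zero_on_sdiff ?_ ?_ fun _ _ => rfl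
    · intro v hv
      rw [Finset.mem_filter, deg_eq] at hv
      exact Finset.mem_filter.mpr ⟨Finset.mem_univ _, hv.2.1⟩
    · intro v hv
      rw [Finset.mem_sdiff, Finset.mem_filter, Finset.mem_filter, deg_eq] at hv
      have h2 : ¬ 1 < legs G v := fun h3 => hv.2 ⟨Finset.mem_univ _, hv.1.2, h3⟩
      omega
  refine ⟨?_, ?_⟩
  · have h1 : metricDim G ≤ S.card := by
      refine Nat.sInf_le ⟨S, ?_, rfl⟩
      intro u v huv
      by_contra hcon
      push Not at hcon
      refine hS u v ⟨huv, fun s hs => ?_⟩
      rw [dist_comm, hcon s hs, dist_comm]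
    omega
  · have h1 : edgeMetricDim G ≤ S'.card := by
      refine Nat.sInf_le ⟨S', ?_, rfl⟩
      intro e he f hf hef
      by_contra hcon
      push Not at hcon
      refine hef (hS' e he f hf fun s hs => ?_)
      have h2 := hcon s hs
      induction e with
      | _ a b =>
        induction f with
        | _ c d =>
          rw [edgeDist_mk, edgeDist_mk] at h2
          exact h2
    omega

end Pool.Agent.Results.MP_4617fc_co.MetricDimensionBound
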